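import Pool.Agent.H93.CP.Targets

/-!
The core is a countable intersection of open sets (MP_5607ba_lc).
-/

set_option autoImplicit false

open Set Filter Topology Pool.Agent.H93.CP

namespace Pool.Agent.H1.CPT

theorem Star_mono {G X : Type} [TopologicalSpace G] [Group G] [MulAction G X] {O O' : Set X}
    {U U' : Set G} (hO : O ⊆ O') (hU : U' ⊆ U) : Star O U ⊆ Star O' U' := by
  intro x hx
  have hx' : IsMeagre {g : G | g ∈ U ∧ g • x ∉ O} := hx
  have hs : {g : G | g ∈ U' ∧ g • x ∉ O'} ⊆ {g : G | g ∈ U ∧ g • x ∉ O} :=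
    fun g hg => ⟨hU hg.1, fun h => hg.2 (hO h)⟩
  exact hx'.mono hs

theorem pf_CGD : T_CGD := by
  intro G X _ _ _ _ _ _ D t ht
  let _ := t
  have := ht.pol
  obtain ⟨B, V, hB, hBc, hV, hVc, hst⟩ := ht.star
  have key : Core G t = ⋂ O ∈ B, (Oᶜ ∪ ⋃ U ∈ {U ∈ V | (1 : G) ∈ U}, Star O U) := by
    ext y
    simp only [mem_iInter, mem_union, mem_compl_iff, mem_iUnion]
    constructor
    · intro hy O hO
      by_cases hyO : y ∈ O
      · right
        obtain ⟨U, hU, h1U, hyU⟩ := hy O (hB.isOpen hO) hyO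
        obtain ⟨U', hU', h1U', hsub⟩ := hV.exists_subset_of_mem_open h1U hU
        exact ⟨U', ⟨hU', h1U'⟩, Star_mono subset_rfl hsub hyU⟩
      · left
        exact hyO
    · intro hy O hO hyO
      obtain ⟨O', hO', hyO', hsub⟩ := hB.exists_subset_of_mem_open hyO hO
      rcases hy O' hO' with h | ⟨U, ⟨hU, h1U⟩, hyU⟩
      · exact absurd hyO' h
      · exact ⟨U, hV.isOpen hU, h1U, Star_mono hsub subset_rfl hyU⟩
  rw [key]
  refine IsGδ.biInter hBc fun O hO => ?_
  refine IsGδ.union ?_ ?_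
  · let _ := TopologicalSpace.upgradeIsCompletelyMetrizable X
    exact (hB.isOpen hO).isClosed_compl.isGδ
  · refine IsOpen.isGδ ?_
    exact isOpen_biUnion fun U hU => hst O hO U hU.1

end Pool.Agent.H1.CPT
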