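import Pool.Agent.H93.CP.Targets2

/-!
A non-archimedean Polish group acts on a countable compact space with small stabilizers of isolated
points (MP_5607ba_lc).
-/

set_option autoImplicit false

open Set Filter Topology Pool.Agent.H93.CP

namespace Pool.Agent.H1.CPT

open OnePoint

/-- maps to the one point compactification of a discrete space -/
theorem continuous_onePoint {T A : Type} [TopologicalSpace T] [TopologicalSpace A]
    [DiscreteTopology A] (h : T → OnePoint A) (hc : ∀ a : A, IsClopen (h ⁻¹' {(a : OnePoint A)})) :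
    Continuous h := by
  rw [continuous_def]
  intro s hs
  by_cases hm : ∞ ∈ s
  · rw [isOpen_iff_of_mem hm, isCompact_iff_finite] at hs
    have h1 : h ⁻¹' s = (⋃ a ∈ (((↑) : A → OnePoint A) ⁻¹' s)ᶜ, h ⁻¹' {(a : OnePoint A)})ᶜ := by
      ext t
      simp only [mem_preimage, mem_compl_iff, mem_iUnion, mem_singleton_iff, exists_prop, not_exists,
        not_and]
      constructor
      · intro ht a ha hta
        exact ha (hta ▸ ht)
      · intro ht
        by_contra hts
        have hne : h t ≠ ∞ := fun h0 => hts (h0 ▸ hm)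
        obtain ⟨a, ha⟩ := ne_infty_iff_exists.1 hne
        exact ht a (fun has => hts (ha ▸ has)) ha.symm
    rw [h1, isOpen_compl_iff]
    exact hs.2.isClosed_biUnion fun a _ => (hc a).1
  · have h1 : h ⁻¹' s = ⋃ a ∈ (((↑) : A → OnePoint A) ⁻¹' s), h ⁻¹' {(a : OnePoint A)} := by
      ext t
      simp only [mem_preimage, mem_iUnion, mem_singleton_iff, exists_prop]
      constructor
      · intro ht
        have hne : h t ≠ ∞ := fun h0 => hm (h0 ▸ ht)
        obtain ⟨a, ha⟩ := ne_infty_iff_exists.1 hne
        exact ⟨a, ha ▸ ht, ha.symm⟩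
      · rintro ⟨a, ha, hta⟩
        rw [hta]
        exact ha
    rw [h1]
    exact isOpen_biUnion fun a _ => (hc a).2

theorem isClopen_coe {A : Type} [TopologicalSpace A] [DiscreteTopology A] (a : A) :
    IsClopen ({(a : OnePoint A)} : Set (OnePoint A)) := by
  have h1 : ({(a : OnePoint A)} : Set (OnePoint A)) = ((↑) : A → OnePoint A) '' {a} := by
    rw [image_singleton]
  rw [h1]
  exact ⟨isClosed_image_coe.2 ⟨isClosed_discrete _, isCompact_singleton⟩,
    isOpen_image_coe.2 (isOpen_discrete _)⟩

theorem secondCountable_onePoint (A : Type) [TopologicalSpace A] [DiscreteTopology A]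
    [Countable A] : SecondCountableTopology (OnePoint A) := by
  classical
  let f : OnePoint A → (A → Bool) := fun z a => decide (z = (a : OnePoint A))
  have hf : Continuous f := by
    refine continuous_pi fun a => ?_
    have h1 : IsClopen {z : OnePoint A | z = (a : OnePoint A)} := isClopen_coe a
    refine (continuous_discrete_rng).2 fun b => ?_
    cases b
    · have : (fun z : OnePoint A => f z a) ⁻¹' {false} = {z : OnePoint A | z = (a : OnePoint A)}ᶜ := by
        ext z
        simp [f]
      rw [this]
      exact h1.1.isOpen_compl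
    · have : (fun z : OnePoint A => f z a) ⁻¹' {true} = {z : OnePoint A | z = (a : OnePoint A)} := by
        ext z
        simp [f]
      rw [this]
      exact h1.2
  have hinj : Function.Injective f := by
    intro z z' hz
    have h1 : ∀ a : A, z = (a : OnePoint A) ↔ z' = (a : OnePoint A) := by
      intro a
      have := congrFun hz a
      simpa [f] using this
    by_cases h2 : z = ∞
    · by_contra h3
      have h4 : z' ≠ ∞ := fun h => h3 (h2.trans h.symm)
      obtain ⟨a, ha⟩ := ne_infty_iff_exists.1 h4
      exact h3 (((h1 a).2 ha.symm).trans ha)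
    · obtain ⟨a, ha⟩ := ne_infty_iff_exists.1 h2
      exact ha.symm.trans ((h1 a).1 ha.symm).symm
  exact (hf.isClosedEmbedding hinj).isEmbedding.secondCountableTopology

/-- the action on the one point compactification -/
def opAction (Γ A : Type) [Group Γ] [MulAction Γ A] : MulAction Γ (OnePoint A) where
  smul g z := OnePoint.map (fun a => g • a) z
  one_smul z := by
    induction z using OnePoint.rec with
    | infty => rfl
    | coe a => exact congrArg ((↑) : A → OnePoint A) (one_smul Γ a)
  mul_smul g g' z := by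
    induction z using OnePoint.rec with
    | infty => rfl
    | coe a => exact congrArg ((↑) : A → OnePoint A) (mul_smul g g' a)

theorem pf_EMB : T_EMB := by
  intro Γ _ _ _ _ hNA
  obtain ⟨u, hu⟩ := (𝓝 (1 : Γ)).exists_antitone_basis
  choose V hVo hVu using fun n => hNA (u n) (hu.mem n)
  haveI hd : ∀ n, DiscreteTopology (Γ ⧸ V n) := fun n => QuotientGroup.discreteTopology (hVo n)
  haveI hcount : ∀ n, Countable (Γ ⧸ V n) := fun n =>
    TopologicalSpace.separableSpace_iff_countable.1 inferInstance
  let A := Σ n : ℕ, Γ ⧸ V n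
  letI act : MulAction Γ (OnePoint A) := opAction Γ A
  have hsm : ∀ (g : Γ) (a : A), g • (a : OnePoint A) = ((g • a : A) : OnePoint A) := fun g a => rfl
  have hsi : ∀ g : Γ, g • (∞ : OnePoint A) = ∞ := fun g => rfl
  have horb : ∀ a : A, Continuous fun g : Γ => g⁻¹ • a := by
    rintro ⟨n, q⟩
    have h1 : Continuous fun g : Γ => g⁻¹ • q := by
      fun_prop
    exact continuous_sigmaMk.comp h1
  have hinv : ∀ (g : Γ) (z : OnePoint A) (a : A), g • z = (a : OnePoint A) ↔
      z = ((g⁻¹ • a : A) : OnePoint A) := by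
    intro g z a
    rw [← hsm, eq_inv_smul_iff]
  refine ⟨OnePoint A, inferInstance, inferInstance, inferInstance, secondCountable_onePoint A,
    inferInstance, inferInstanceAs (Countable (Option A)), act, ?_, ?_⟩
  · refine continuous_onePoint _ fun a => ?_
    have hopen : ∀ b : A, IsClopen {g : Γ | g⁻¹ • a = b} := fun b =>
      (isClopen_discrete ({b} : Set A)).preimage (horb a)
    constructor
    · rw [← isOpen_compl_iff]
      have h1 : ((fun p : Γ × OnePoint A => p.1 • p.2) ⁻¹' {(a : OnePoint A)})ᶜ =
          ⋃ b : A, {g : Γ | g⁻¹ • a = b} ×ˢ ({(b : OnePoint A)}ᶜ : Set (OnePoint A)) := by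
        ext ⟨g, z⟩
        simp only [mem_compl_iff, mem_preimage, mem_singleton_iff, hinv, mem_iUnion, mem_prod,
          mem_ofPred_eq]
        constructor
        · intro h
          exact ⟨g⁻¹ • a, rfl, h⟩
        · rintro ⟨b, rfl, h⟩
          exact h
      rw [h1]
      exact isOpen_iUnion fun b => (hopen b).2.prod (isClopen_coe b).1.isOpen_compl
    · have h1 : ((fun p : Γ × OnePoint A => p.1 • p.2) ⁻¹' {(a : OnePoint A)}) =
          ⋃ b : A, {g : Γ | g⁻¹ • a = b} ×ˢ ({(b : OnePoint A)} : Set (OnePoint A)) := by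
        ext ⟨g, z⟩
        simp only [mem_preimage, mem_singleton_iff, hinv, mem_iUnion, mem_prod,
          mem_ofPred_eq]
        constructor
        · intro h
          exact ⟨g⁻¹ • a, rfl, h⟩
        · rintro ⟨b, rfl, h⟩
          exact h
      rw [h1]
      exact isOpen_iUnion fun b => (hopen b).2.prod (isClopen_coe b).2
  · intro W hW
    obtain ⟨n, hn⟩ := hu.mem_iff.1 hW
    let q : Γ ⧸ V n := ((1 : Γ) : Γ ⧸ V n)
    refine ⟨(((⟨n, q⟩ : A)) : OnePoint A), (isClopen_coe _).2, ?_⟩
    intro γ hγ
    rw [hsm] at hγ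
    have h1 : (γ • (⟨n, q⟩ : A)) = ⟨n, q⟩ := coe_injective hγ
    have h2 : γ • q = q := by
      have h3 : (⟨n, γ • q⟩ : A) = ⟨n, q⟩ := h1
      exact eq_of_heq (Sigma.mk.inj h3).2
    have h4 : ((γ * 1 : Γ) : Γ ⧸ V n) = ((1 : Γ) : Γ ⧸ V n) := h2
    rw [mul_one] at h4
    have h5 := QuotientGroup.eq.1 h4
    rw [mul_one] at h5
    exact hn (hVu n ((V n).inv_mem_iff.1 h5))

end Pool.Agent.H1.CPT
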