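import Pool.Agent.H93.CP.Targets

/-!
Swaps lie in the group of the system (MP_5607ba_lc).
-/

set_option autoImplicit false

open Set Filter Topology Pool.Agent.H93.CP

namespace Pool.Agent.H1.CPT

theorem pf_SWG (hPRP : T_PRP) : T_SWG := by
  intro G X _ _ _ _ _ Y r r' γ hrr ⟨h1, h2, h3⟩
  obtain ⟨-, -, -, -, -, hB, -⟩ := hPRP G Y.S
  have hbdd : ∀ l y, Y.S.Bdd l (γ.h y) ↔ Y.S.Bdd l y := by
    intro l y
    by_cases hr : Y.S.Mem r y
    · exact hB r r' y (γ.h y) l hrr (h1 y hr).1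
    by_cases hr' : Y.S.Mem r' y
    · exact hB r' r y (γ.h y) l hrr.symm (h2 y hr').1
    rw [(h3 y hr hr').1]
  refine ⟨hbdd, ?_⟩
  intro y hy
  have hinf : Y.S.Inf (γ.h y) := fun l hl => hy l ((hbdd l y).1 hl)
  by_cases hr : Y.S.Mem r y
  · rw [(h1 y hr).2, Y.rep r r' y (γ.h y) hy hinf (h1 y hr).1 hrr]
  by_cases hr' : Y.S.Mem r' y
  · rw [(h2 y hr').2, Y.rep r' r y (γ.h y) hy hinf (h2 y hr').1 hrr.symm]
  rw [(h3 y hr hr').2, (h3 y hr hr').1, one_smul]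

end Pool.Agent.H1.CPT
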